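import Pool.Agent.Run7.h673.LU.Cases

/-!
# Torsion in class groups: a criterion in terms of the Galois group

A condition on a finite group `G` and a subgroup `H` is given under which **all** number fields `K` which are fixed fields of `H`
in Galois extensions of `ℚ` with group `G` satisfy `|Cl_K[l]| ≤ C |disc K| ^ (1 / 2 - δ)` for every `l`, with
`δ = δ (n, |G|, l) > 0`, without exceptional fields and without hypotheses on L-functions. The condition is satisfied if

* `K` is Galois with centreless group (for example `S_m`, `m ≥ 3`, `A_m`, `m ≥ 4`, nonabelian simple groups, Frobenius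
  groups, dihedral groups of order `2 m`, `m` odd), or
* `K` has degree `n` and no subfields except `ℚ` and `K`, and the Galois group of its Galois closure contains no `n`-cycle
  (for example: the quartic fields with group `A_4`, the fields of even degree `n` with group `A_n`, the fields of degree
  `6` with group `A_5`, of degree `12` with group `M_11` or `M_12`, of degree `24` with group `M_24`); here `s = 1` is
  possible, that is, the saving is `|disc K| ^ (c / l)`,

and in many other cases (elementary abelian noncyclic groups, the group `D_4`, composita of fields with groups `A_4`, ...).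
More generally the saving is a power of `|disc E|` for all fields `K` containing a field `E` with such a pair `(G, H)`.

Method. Let `E` be the fixed field of `H` in `L`, and let `F_j` be the field generated by the integers of `L` all conjugates of
which are at most `B_j`, where `B_0 = |disc E| ^ δ'` and `B_{j + 1} = B_j ^ (C l)`. Choose `j` such that `E` contains no
integers with conjugates at most `B_{j + 1}` outside `F_j`. Let `N` be the group of `F_j`. If no element of `N` is in
`Inert H N` one takes primes the Frobenius elements of which are in `N`: many primes divide the values of a polynomial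
with a root which generates `F_j` (an argument of Chebyshev and Erdős). If `N` and `Inert H N` do not generate `G` one
takes primes which do not split completely in a subfield of `F_j`: a positive proportion of the primes in a suitable range
has this property, by a packing argument for the ideals of this subfield, uniform in the field. In both cases `E` has two
different prime ideals over the same prime ideal of `E ∩ F_j`, and the method of Ellenberg and Venkatesh applies to the
first one: the integers which occur are not in `E ∩ F_j`, and so they are large.
-/

set_option autoImplicit false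

open scoped NumberField

namespace Pool.Agent.Results.MP_695920_nt.GaloisGroupCriterion

/-- The elements of the Galois group of `L` over `ℚ` which fix the subfield `E`. -/
def groupOf (E L : Type) [Field E] [Field L] [NumberField L] [Algebra E L] : Subgroup Gal(L/ℚ) :=
  fixingSubgroup Gal(L/ℚ) (Set.range (algebraMap E L))

/-- The elements `σ` of a group such that every orbit of `N` on the cosets of `H` is contained in an orbit of `σ`. -/
def Inert {G : Type} [Group G] (H N : Subgroup G) : Set G :=
  {σ | ∀ ν ∈ N, ∀ x : G ⧸ H, ∃ k : ℤ, σ ^ k • x = ν • x}

/-- The condition on a group `G` and a subgroup `H`. Either `H` is trivial and `G` has trivial centre, or `H` is a maximal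
subgroup and no element of `G` acts on the cosets of `H` as a full cycle, or, more generally, for every normal subgroup `N`
of `G` not contained in `H`: `N` contains no element of `Inert H N`, or `N` and `Inert H N` do not generate `G`. -/
def Admissible {G : Type} [Group G] (H : Subgroup G) : Prop :=
  (H = ⊥ ∧ Subgroup.center G = ⊥) ∨
    (IsCoatom H ∧ ∀ σ : G, ∃ x y : G ⧸ H, ∀ k : ℤ, σ ^ k • x ≠ y) ∨
    ∀ N : Subgroup G, N.Normal → ¬ N ≤ H →
      (∀ σ ∈ N, σ ∉ Inert H N) ∨ Subgroup.closure (Inert H N ∪ (N : Set G)) ≠ ⊤

/-- Let `n ≥ 2`, `N` and `s` be given. There is `c > 0` such that for every `l ≥ 1` there is `C > 0` with the following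
property.

Let `K` be a number field of degree `n`, let `E` be a subfield of `K`, and let `L` be a Galois extension of `ℚ` of degree
`N` which contains `E`. Let `H` be the subgroup of `G = Gal(L/ℚ)` belonging to `E`, and suppose that chains
`H < H_1 < ... < H_t` of subgroups of `G` have length `t ≤ s` (`s = ⌊log₂ [E : ℚ]⌋` is always possible, and `s = 1` if `E` has no
subfields except `ℚ` and `E`). If `H` satisfies the condition `Admissible` then

  `|Cl_K[l]| ≤ C |disc K| ^ (1 / 2) (log |disc K|) ^ (n - 1) |disc E| ^ (- c / l ^ s)`. -/
theorem result (n N s : ℕ) (hn : 2 ≤ n) : ∃ c : ℝ, 0 < c ∧ ∀ l : ℕ, 1 ≤ l → ∃ C : ℝ, 0 < C ∧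
    ∀ (K E L : Type) [Field K] [NumberField K] [Field E] [NumberField E] [Field L] [NumberField L]
      [Algebra E K] [Algebra E L] [IsGalois ℚ L],
    Module.finrank ℚ K = n → Module.finrank ℚ L = N →
    Order.coheight (groupOf E L) ≤ s → Admissible (groupOf E L) →
    (Nat.card {x : ClassGroup (𝓞 K) // x ^ l = 1} : ℝ) ≤
      C * √|(NumberField.discr K : ℝ)| * Real.log |(NumberField.discr K : ℝ)| ^ (n - 1) *
        |(NumberField.discr E : ℝ)| ^ (-(c / (l : ℝ) ^ s)) := by
  rcases Nat.eq_zero_or_pos N with hN | hN
  · refine ⟨1, one_pos, fun l _ => ⟨1, one_pos, ?_⟩⟩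
    intro K E L _ _ _ _ _ _ _ _ _ _ hL
    have : 0 < Module.finrank ℚ L := Module.finrank_pos
    omega
  obtain ⟨c, hc, h⟩ := Run7.h673.LU.mainR n N s hn hN
  refine ⟨c, hc, fun l hl => ?_⟩
  obtain ⟨C, hC, h⟩ := h l hl
  refine ⟨C, hC, ?_⟩
  intro K E L _ _ _ _ _ _ _ _ _ hK hL hs hadm
  have hD : (1 : ℝ) ≤ |(NumberField.discr E : ℝ)| := Run7.h673.LT.one_le_abs_discr E
  refine h E K L ⊤ hK hL (fun U hU => Run7.h673.LU.chain_of_coheight hs U hU) ?_
    (Run7.h673.LT.small_top (by positivity))
  rcases hadm with ⟨h1, h2⟩ | ⟨h1, h2⟩ | h1
  · have h3 : Run7.h673.LT.fix E L = ⊥ := h1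
    rw [h3]
    exact Run7.h673.LU.admR_of_center h2
  · exact Run7.h673.LU.admR_of_coatom h1 h2
  · exact fun M hM _ hMH => h1 M hM hMH

end Pool.Agent.Results.MP_695920_nt.GaloisGroupCriterion
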