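import Pool.Agent.Run7.h673.LU.ResMain

/-!
# Torsion in class groups: fields whose discriminant has a small squarefree part

Let `K` be a number field of degree `n ≥ 3` without subfields except `ℚ` and `K` (for example: `n` is a prime number, or the
Galois group of the Galois closure of `K` is `S_n` or another primitive group), and suppose that `disc K = d f ^ 2` where `|d|` is
at most a small power of `|disc K|`; if `n` is odd let `disc K` be no square. Then `|Cl_K[l]| ≤ C |disc K| ^ (1 / 2 - c / l)` for
all `l`, with `c > 0` depending only on `n`. (In other words: the quadratic resolvent `ℚ(√(disc K))` of `K` has a small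
discriminant. For example, all cubic fields, not cyclic, the discriminants of which are `d f ^ 2` with fixed `d`, such as the pure
cubic fields, or with `|d| ≤ |disc K| ^ (c / l)`; all fields of even degree `n` with group `A_n`.) There are no exceptional
fields, and no hypotheses on L-functions.

Method. If a prime `p`, unramified in `K`, generates a prime ideal of `K`, a Frobenius element at `p` permutes the `n`
embeddings of `K` as a full cycle, and so maps the square root of `d` to itself times `(-1) ^ (n - 1)`. If `n` is odd one
needs many primes which do not split in `ℚ(√d)`; a positive proportion of the primes in a suitable range has this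
property, by a packing argument for the ideals of the quadratic field. If `n` is even one needs many primes which split in
`ℚ(√d)`; many primes divide the values of the polynomial `x ^ 2 - d` (an argument of Chebyshev and Erdős). These primes are
powers of `|d|` and have two different prime ideals of `K` over them, and the method of Ellenberg and Venkatesh applies to
one of them, of degree less than `n`.
-/

set_option autoImplicit false

open scoped NumberField

namespace Pool.Agent.Results.MP_695920_nt.SmallSquarefreePart

/-- Let `n ≥ 2`. There is `c > 0` such that for every `l ≥ 1` there is `C > 0` with the following property. Let `K` be a number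
field of degree `n` without subfields except `ℚ` and `K`, and let `disc K = d f ^ 2` with integers `d`, `f` such that
`|d| ≤ |disc K| ^ (c / l)`. If `n` is odd suppose that `d` is not a square. Then

  `|Cl_K[l]| ≤ C |disc K| ^ (1 / 2 - c / l)`. -/
theorem result (n : ℕ) (hn : 2 ≤ n) : ∃ c : ℝ, 0 < c ∧ ∀ l : ℕ, 1 ≤ l → ∃ C : ℝ, 0 < C ∧
    ∀ (K : Type) [Field K] [NumberField K], Module.finrank ℚ K = n →
    (∀ F : IntermediateField ℚ K, F = ⊥ ∨ F = ⊤) →
    ∀ d f : ℤ, NumberField.discr K = d * f ^ 2 → (Odd n → ¬ IsSquare d) →
    |(d : ℝ)| ≤ |(NumberField.discr K : ℝ)| ^ (c / (l : ℝ)) →
    (Nat.card {x : ClassGroup (𝓞 K) // x ^ l = 1} : ℝ) ≤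
      C * |(NumberField.discr K : ℝ)| ^ (1 / 2 - c / (l : ℝ)) :=
  Run7.h673.LU.resolvent n hn

end Pool.Agent.Results.MP_695920_nt.SmallSquarefreePart
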