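import Pool.Agent.Run7.h844.RP.PwTo
import Pool.Agent.Run7.h844.RP.PwG

/-!
# Torsion in the class groups of the fields `F(α) = j u` of every degree, `u = c + κ ⌊g(q) + z⌋`, `q` prime

Method: exponential sums over primes with the phase of a generalised polynomial: derivative bounds uniform in the
coefficients, van der Corput differencing of all orders, bilinear sums, Vaughan's identity (after `Pool.Agent.H895R3.NK`,
`Pool.Agent.H373R2.T7`), with a power saving at all frequencies up to a power, and a discrete Fejér kernel for the passage to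
the integer parts (library `Pool.Agent.Run7.h844.RP`). After this many small primes have a prime ideal of degree one above
them for almost all members, with a high power saving in the proportion of the exceptions at each scale, and the argument of
Ellenberg and Venkatesh applies (starting files `Pool.Agent.H491R4.HM`, `Pool.Agent.R459.Tor`; library file `RP.PwTo`).
-/

set_option autoImplicit false

namespace Pool.Agent.Results.MP_695920_nt.ValuesAtPrimes

open Finset NumberField Filter Polynomial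

/-- The generalised polynomial `∑ a x * t ^ x`, `x ∈ E`, with real exponents and coefficients. -/
noncomputable def genPoly (E : Finset ℝ) (a : ℝ → ℝ) (t : ℝ) : ℝ := ∑ x ∈ E, a x * t ^ x

/-- `e` is the largest exponent; it is positive and not an integer, and its coefficient is not zero. -/
def Leading (E : Finset ℝ) (a : ℝ → ℝ) (e : ℝ) : Prop :=
  e ∈ E ∧ (∀ x ∈ E, x ≤ e) ∧ 0 < e ∧ (∀ m : ℕ, e ≠ m) ∧ a e ≠ 0

/-- `|Cl(K)[ℓ]|`: the number of the ideal classes of `K` killed by `ℓ`. -/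
noncomputable def tors (K : Type) [Field K] [NumberField K] (ℓ : ℕ) : ℕ :=
  Nat.card {x : ClassGroup (𝓞 K) // x ^ ℓ = 1}

open Classical in
/-- Let `g(t) = ∑ a x t ^ x` be a generalised polynomial whose largest exponent is positive and not an integer, and let `m ≥ 1`.
There is `δ > 0` such that for `κ ≠ 0`, all degrees `n ≥ 2`, and all `U`, `V` there are `B`, `N₀` such that the following holds
for all `N ≥ N₀`, EVERY real number `z`, all `c`, all monic polynomials `F` of degree `n` with integer coefficients of absolute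
value at most `log ^ U N`, all integers `j ≠ 0` with `|j| ≤ log ^ U N`, all `1 ≤ ℓ ≤ log ^ U N` and all `Y ≥ 1`.

Let `K_u`, `u ∈ S`, be number fields of degree `n` with discriminant of absolute value at most `Y`, generated by an element
`α` with `F(α) = j u`, for the integers `u` in a set `S` of integers of absolute value at most `N ^ V`. Then the mean value over
the primes `q` in `(N, 2N]` of the power `|Cl(K_u)[ℓ]| ^ m`, `u = c + κ ⌊g(q) + z⌋` (with `0` if `u` is not in `S`) is at most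
`((log N) ^ B Y ^ (1 / 2) max (Y ^ (-1 / (n (n - 1) ℓ)), N ^ (- δ))) ^ m`. -/
theorem result (E : Finset ℝ) (a : ℝ → ℝ) (e : ℝ) (hE : Leading E a e) (m : ℕ) (hm : 1 ≤ m) :
    ∃ δ : ℝ, 0 < δ ∧ ∀ κ : ℤ, κ ≠ 0 → ∀ n : ℕ, 2 ≤ n → ∀ U V : ℕ, ∃ B N₀ : ℕ, ∀ N : ℕ, N₀ ≤ N → ∀ (z : ℝ) (c : ℤ),
    ∀ F : ℤ[X], F.Monic → F.natDegree = n → (∀ i, |(F.coeff i : ℝ)| ≤ Real.log N ^ U) →
    ∀ j : ℤ, j ≠ 0 → |(j : ℝ)| ≤ Real.log N ^ U → ∀ ℓ : ℕ, 1 ≤ ℓ → (ℓ : ℝ) ≤ Real.log N ^ U → ∀ Y : ℝ, 1 ≤ Y →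
    ∀ (S : Set ℤ) (K : ℤ → Type) [∀ u, Field (K u)] [∀ u, NumberField (K u)],
    (∀ u ∈ S, |u| ≤ (N : ℤ) ^ V ∧ Module.finrank ℚ (K u) = n ∧ |(discr (K u) : ℝ)| ≤ Y ∧
      ∃ α : K u, IntermediateField.adjoin ℚ {α} = ⊤ ∧ aeval α F = ((j * u : ℤ) : K u)) →
    ∑ q ∈ (Ioc N (2 * N)).filter Nat.Prime, (if c + κ * ⌊genPoly E a q + z⌋ ∈ S then
      (tors (K (c + κ * ⌊genPoly E a q + z⌋)) ℓ : ℝ) ^ m else 0) ≤
      (Real.log N ^ B * (√Y * max (Y ^ (-(1 / ((n : ℝ) * (n - 1) * ℓ)))) ((N : ℝ) ^ (-δ)))) ^ m *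
        ((Ioc N (2 * N)).filter Nat.Prime).card := by
  obtain ⟨β, hβ, hβ1, N₁, hfam⟩ := Pool.Agent.Run7.h844.RP.primes_fam E e hE.1 hE.2.2.2.1 hE.2.2.1 hE.2.1 a hE.2.2.2.2
  obtain ⟨W, hW, H⟩ := Pool.Agent.Run7.h844.RP.ip_tors m hm
  have hWr : (1 : ℝ) ≤ W := by exact_mod_cast hW
  have hW0 : (0 : ℝ) < W := by linarith
  refine ⟨β / W, by positivity, fun κ hκ n hn U V => ?_⟩
  obtain ⟨V', hV'⟩ : ∃ V' : ℕ, 2 * V / β ≤ V' := exists_nat_ge _
  obtain ⟨B₂, k₀, J⟩ := H κ hκ n hn (2 * U) V'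
  have hev : ∀ᶠ N : ℕ in atTop, ((2 : ℝ) + (2 / β) * (k₀ + 2 / β + 2)) ≤ Real.log N :=
    (Real.tendsto_log_atTop.comp (tendsto_natCast_atTop_atTop (R := ℝ))).eventually_ge_atTop _
  obtain ⟨N₂, hN₂⟩ := eventually_atTop.1 hev
  refine ⟨2 * B₂ + 1, N₁ + N₂ + 2, fun N hN z c F hF hFn hFc j hj0 hj ℓ hℓ hℓU Y hY S K _ _ hS => ?_⟩
  have hlog := hN₂ N (by omega)
  have hN2 : (2 : ℝ) ≤ N := by exact_mod_cast (by omega : 2 ≤ N)
  have hN0 : (0 : ℝ) < N := by linarith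
  obtain ⟨L, hL⟩ : ∃ L : ℝ, L = Real.log N := ⟨_, rfl⟩
  rw [← hL] at hlog hFc hj hℓU ⊢
  have h2β : 0 < 2 / β := by positivity
  have hL2 : 2 ≤ L := by
    have : 0 ≤ (2 / β) * (k₀ + 2 / β + 2) := by positivity
    linarith
  have hL0 : 0 < L := by linarith
  -- the scale
  have hT1 : 1 ≤ (N : ℝ) ^ β := Real.one_le_rpow (by linarith) hβ.le
  have hT0 : 0 < (N : ℝ) ^ β := by linarith
  obtain ⟨k, hk1, hk2⟩ : ∃ k : ℕ, (2 : ℝ) ^ k ≤ (N : ℝ) ^ β ∧ (N : ℝ) ^ β < 2 ^ (k + 1) :=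
    exists_nat_pow_near hT1 (by norm_num)
  have hl2a : Real.log 2 ≤ 1 := by
    have := Real.log_two_lt_d9
    linarith
  have hl2b : 1 / 2 ≤ Real.log 2 := by
    have := Real.log_two_gt_d9
    linarith
  have hlogT : Real.log ((N : ℝ) ^ β) = β * L := by rw [Real.log_rpow hN0, hL]
  have hka : (k : ℝ) * Real.log 2 ≤ β * L := by
    have h1 := Real.log_le_log (by positivity) hk1
    rwa [Real.log_pow, hlogT] at h1
  have hkb : β * L ≤ ((k : ℝ) + 1) * Real.log 2 := by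
    have h1 := Real.log_le_log hT0 hk2.le
    rw [Real.log_pow, hlogT] at h1
    push_cast at h1
    exact h1
  have hk0r : (0 : ℝ) ≤ k := Nat.cast_nonneg _
  have hkL : (k : ℝ) ≤ L ^ 2 := by nlinarith
  have hkβ : β * L ≤ k + 1 := by nlinarith
  have hβL : (2 : ℝ) * (k₀ + 2 / β + 2) ≤ β * L := by
    have h1 : β * ((2 / β) * (k₀ + 2 / β + 2)) ≤ β * L := mul_le_mul_of_nonneg_left (by linarith) hβ.le
    have h2 : β * ((2 / β) * (k₀ + 2 / β + 2)) = 2 * (k₀ + 2 / β + 2) := by field_simp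
    linarith
  have hk₀r : (0 : ℝ) ≤ k₀ := Nat.cast_nonneg _
  have hkbig : (k₀ : ℝ) + 2 / β + 2 ≤ k := by linarith
  have hkk₀ : k₀ ≤ k := by
    have : (k₀ : ℝ) ≤ k := by linarith
    exact_mod_cast this
  have hk1r : (1 : ℝ) ≤ k := by linarith
  have hk2β : 2 / β ≤ k := by linarith
  have hLk : L ≤ k ^ 2 := by
    have h1 : L ≤ (2 / β) * k := by
      rw [div_mul_eq_mul_div, le_div_iff₀ hβ]
      linarith
    nlinarith
  have hLU : L ^ U ≤ (k : ℝ) ^ (2 * U) := by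
    rw [pow_mul]
    exact pow_le_pow_left₀ hL0.le hLk U
  -- the family
  have hIF : Pool.Agent.Run7.h844.RP.IFam (Pool.Agent.Run7.h844.RP.PB N) (Pool.Agent.Run7.h844.RP.vz E a z) ((2 : ℝ) ^ k) :=
    ⟨by positivity, (hfam N (by omega) z).small.mono (by positivity) hk1⟩
  have h1 := J k hkk₀ ℕ _ _ hIF c F ⟨hF, hFn, fun i => by
      have h2 : |(F.coeff i : ℝ)| ≤ ((k ^ (2 * U) : ℕ) : ℝ) := by
        push_cast
        exact (hFc i).trans hLU
      have h3 : |F.coeff i| ≤ ((k ^ (2 * U) : ℕ) : ℤ) := by exact_mod_cast h2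
      push_cast at h3
      exact h3⟩ j hj0 (by
      have h2 : |(j : ℝ)| ≤ ((k ^ (2 * U) : ℕ) : ℝ) := by
        push_cast
        exact hj.trans hLU
      have h3 : |j| ≤ ((k ^ (2 * U) : ℕ) : ℤ) := by exact_mod_cast h2
      push_cast at h3
      exact h3) ℓ hℓ (by
      have h2 : (ℓ : ℝ) ≤ ((k ^ (2 * U) : ℕ) : ℝ) := by
        push_cast
        exact hℓU.trans hLU
      exact_mod_cast h2) Y hY S K (fun u hu => by
      obtain ⟨h2, h3, h4, h5⟩ := hS u hu
      refine ⟨?_, h3, h4, h5⟩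
      have h6 : (N : ℝ) ^ V ≤ 2 ^ (V' * k) := by
        have h7 : (N : ℝ) ≤ (2 : ℝ) ^ ((2 * (k : ℝ)) / β) := by
          have h8 : (N : ℝ) ^ β ≤ (2 : ℝ) ^ (2 * (k : ℝ)) := by
            refine hk2.le.trans ?_
            rw [← Real.rpow_natCast]
            apply Real.rpow_le_rpow_of_exponent_le (by norm_num)
            push_cast
            linarith
          calc (N : ℝ) = ((N : ℝ) ^ β) ^ (1 / β) := by
                rw [← Real.rpow_mul hN0.le]
                have : β * (1 / β) = 1 := by field_simp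
                rw [this, Real.rpow_one]
            _ ≤ ((2 : ℝ) ^ (2 * (k : ℝ))) ^ (1 / β) := Real.rpow_le_rpow hT0.le h8 (by positivity)
            _ = (2 : ℝ) ^ ((2 * (k : ℝ)) / β) := by
                rw [← Real.rpow_mul (by norm_num)]
                congr 1
                ring
        calc (N : ℝ) ^ V ≤ ((2 : ℝ) ^ ((2 * (k : ℝ)) / β)) ^ V := pow_le_pow_left₀ hN0.le h7 V
          _ = (2 : ℝ) ^ ((2 * V / β) * k) := by
              rw [← Real.rpow_natCast, ← Real.rpow_mul (by norm_num)]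
              congr 1
              ring
          _ ≤ (2 : ℝ) ^ (((V' * k : ℕ) : ℝ)) := by
              apply Real.rpow_le_rpow_of_exponent_le (by norm_num)
              push_cast
              exact mul_le_mul_of_nonneg_right hV' hk0r
          _ = 2 ^ (V' * k) := Real.rpow_natCast _ _
      have h9 : ((N ^ V : ℕ) : ℝ) ≤ ((2 ^ (V' * k) : ℕ) : ℝ) := by
        push_cast
        exact h6
      have h10 : N ^ V ≤ 2 ^ (V' * k) := by exact_mod_cast h9
      have h11 : ((N ^ V : ℕ) : ℤ) ≤ ((2 ^ (V' * k) : ℕ) : ℤ) := by exact_mod_cast h10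
      push_cast at h11
      exact h2.trans h11)
  unfold Pool.Agent.Run7.h844.RP.MeanI at h1
  have hcard0 : (0 : ℝ) ≤ ((Ioc N (2 * N)).filter Nat.Prime).card := Nat.cast_nonneg _
  have hb : ((k : ℝ) ^ B₂ * (√Y * max (Y ^ (-(1 / ((n * (n - 1) * ℓ : ℕ) : ℝ)))) ((2 : ℝ) ^ (-((k : ℝ) / W))))) ≤
      L ^ (2 * B₂ + 1) * (√Y * max (Y ^ (-(1 / ((n : ℝ) * (n - 1) * ℓ)))) ((N : ℝ) ^ (-(β / W)))) := by
    have e2 : ((n * (n - 1) * ℓ : ℕ) : ℝ) = (n : ℝ) * (n - 1) * ℓ := by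
      rw [Nat.cast_mul, Nat.cast_mul, Nat.cast_sub (by omega), Nat.cast_one]
    rw [e2]
    have e3 : (2 : ℝ) ^ (-((k : ℝ) / W)) ≤ 2 * (N : ℝ) ^ (-(β / W)) := by
      have e4 : (N : ℝ) ^ (β / W) ≤ 2 * (2 : ℝ) ^ ((k : ℝ) / W) := by
        calc (N : ℝ) ^ (β / W) = ((N : ℝ) ^ β) ^ (1 / (W : ℝ)) := by
              rw [← Real.rpow_mul hN0.le]
              congr 1
              ring
          _ ≤ ((2 : ℝ) ^ (k + 1)) ^ (1 / (W : ℝ)) := Real.rpow_le_rpow hT0.le hk2.le (by positivity)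
          _ = (2 : ℝ) ^ (1 / (W : ℝ) + (k : ℝ) / W) := by
              rw [← Real.rpow_natCast, ← Real.rpow_mul (by norm_num)]
              congr 1
              push_cast
              ring
          _ = (2 : ℝ) ^ (1 / (W : ℝ)) * (2 : ℝ) ^ ((k : ℝ) / W) := Real.rpow_add (by norm_num) _ _
          _ ≤ 2 * (2 : ℝ) ^ ((k : ℝ) / W) := by
              apply mul_le_mul_of_nonneg_right _ (by positivity)
              have e5 : (2 : ℝ) ^ (1 / (W : ℝ)) ≤ 2 ^ (1 : ℝ) := by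
                apply Real.rpow_le_rpow_of_exponent_le (by norm_num)
                rw [div_le_one hW0]
                exact hWr
              rwa [Real.rpow_one] at e5
      rw [Real.rpow_neg (by norm_num), Real.rpow_neg hN0.le, ← div_eq_mul_inv, inv_eq_one_div,
        div_le_div_iff₀ (by positivity) (by positivity)]
      linarith
    have e6 : max (Y ^ (-(1 / ((n : ℝ) * (n - 1) * ℓ)))) ((2 : ℝ) ^ (-((k : ℝ) / W))) ≤
        2 * max (Y ^ (-(1 / ((n : ℝ) * (n - 1) * ℓ)))) ((N : ℝ) ^ (-(β / W))) := by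
      apply max_le
      · have e7 : 0 ≤ Y ^ (-(1 / ((n : ℝ) * (n - 1) * ℓ))) := by positivity
        have e8 := le_max_left (Y ^ (-(1 / ((n : ℝ) * (n - 1) * ℓ)))) ((N : ℝ) ^ (-(β / W)))
        linarith
      · have e8 := le_max_right (Y ^ (-(1 / ((n : ℝ) * (n - 1) * ℓ)))) ((N : ℝ) ^ (-(β / W)))
        linarith
    have hmx : 0 ≤ max (Y ^ (-(1 / ((n : ℝ) * (n - 1) * ℓ)))) ((N : ℝ) ^ (-(β / W))) :=
      le_max_of_le_right (by positivity)
    have e9 : (k : ℝ) ^ B₂ ≤ L ^ (2 * B₂) := by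
      rw [pow_mul]
      exact pow_le_pow_left₀ hk0r hkL _
    calc (k : ℝ) ^ B₂ * (√Y * max (Y ^ (-(1 / ((n : ℝ) * (n - 1) * ℓ)))) ((2 : ℝ) ^ (-((k : ℝ) / W)))) ≤
        L ^ (2 * B₂) * (√Y * (2 * max (Y ^ (-(1 / ((n : ℝ) * (n - 1) * ℓ)))) ((N : ℝ) ^ (-(β / W))))) := by
          apply mul_le_mul e9 _ (by positivity) (by positivity)
          exact mul_le_mul_of_nonneg_left e6 (by positivity)
      _ = L ^ (2 * B₂) * 2 * (√Y * max (Y ^ (-(1 / ((n : ℝ) * (n - 1) * ℓ)))) ((N : ℝ) ^ (-(β / W)))) := by ring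
      _ ≤ L ^ (2 * B₂) * L * (√Y * max (Y ^ (-(1 / ((n : ℝ) * (n - 1) * ℓ)))) ((N : ℝ) ^ (-(β / W)))) := by
          apply mul_le_mul_of_nonneg_right _ (by positivity)
          exact mul_le_mul_of_nonneg_left hL2 (by positivity)
      _ = _ := by rw [pow_succ]
  have hb0 : 0 ≤ ((k : ℝ) ^ B₂ * (√Y * max (Y ^ (-(1 / ((n * (n - 1) * ℓ : ℕ) : ℝ)))) ((2 : ℝ) ^ (-((k : ℝ) / W))))) := by
    have : 0 ≤ max (Y ^ (-(1 / ((n * (n - 1) * ℓ : ℕ) : ℝ)))) ((2 : ℝ) ^ (-((k : ℝ) / W))) :=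
      le_max_of_le_right (by positivity)
    positivity
  have hPB : ((Pool.Agent.Run7.h844.RP.PB N).card : ℝ) = ((Ioc N (2 * N)).filter Nat.Prime).card := rfl
  rw [hPB] at h1
  refine le_trans (le_of_eq ?_) (h1.trans (mul_le_mul_of_nonneg_right (pow_le_pow_left₀ hb0 hb m) hcard0))
  rfl

end Pool.Agent.Results.MP_695920_nt.ValuesAtPrimes
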